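import Pool.Agent.Work.MP_6f78fb_rk.Interface

open scoped BigOperators TensorProduct
open Classical

noncomputable section

namespace Pool.RookLC.helper49

variable {n m : ℕ}

/-- the action on pairs -/
def ac2 (g : G n m) (ω : Pr n m) : Pr n m := (actC g ω.1, actC g ω.2)

theorem actC_apply (g : G n m) (α : Cf n m) (a : Fin n) :
    actC g α (g.1 a) = (α a).map (Option.map g.2) := by
  unfold actC
  rw [Equiv.symm_apply_apply]

theorem map_real (s : St m) (τ : Equiv.Perm (Fin m)) (j : Fin m) :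
    s.map (Option.map τ) = some (some (τ j)) ↔ s = some (some j) := by
  rcases s with _ | _ | k
  · simp
  · simp
  · simp

theorem map_none (s : St m) (τ : Equiv.Perm (Fin m)) :
    s.map (Option.map τ) = none ↔ s = none := by
  rcases s with _ | _ | k <;> simp

theorem map_mark (s : St m) (τ : Equiv.Perm (Fin m)) :
    s.map (Option.map τ) = some none ↔ s = some none := by
  rcases s with _ | _ | k <;> simp

theorem valid_act (g : G n m) (α : Cf n m) : Valid (actC g α) ↔ Valid α := by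
  constructor
  · intro h a b j ha hb
    have := h (g.1 a) (g.1 b) (g.2 j) (by rw [actC_apply, map_real]; exact ha)
      (by rw [actC_apply, map_real]; exact hb)
    exact g.1.injective this
  · intro h a b j ha hb
    obtain ⟨a, rfl⟩ := g.1.surjective a
    obtain ⟨b, rfl⟩ := g.1.surjective b
    obtain ⟨j, rfl⟩ := g.2.surjective j
    rw [actC_apply, map_real] at ha hb
    rw [h a b j ha hb]

theorem valid2_act (g : G n m) (ω : Pr n m) : Valid2 (ac2 g ω) ↔ Valid2 ω := by
  unfold Valid2 ac2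
  rw [valid_act, valid_act]

theorem shr_act (g : G n m) (ω : Pr n m) (a b : Fin n) :
    Shr (ac2 g ω) (g.1 a) (g.1 b) ↔ Shr ω a b := by
  constructor
  · rintro ⟨j, h⟩
    obtain ⟨j, rfl⟩ := g.2.surjective j
    refine ⟨j, ?_⟩
    unfold ac2 at h
    simp only [actC_apply, map_real] at h
    exact h
  · rintro ⟨j, h⟩
    refine ⟨g.2 j, ?_⟩
    unfold ac2
    simp only [actC_apply, map_real]
    exact h

def isoG (g : G n m) (ω : Pr n m) : gr ω ≃g gr (ac2 g ω) where
  toEquiv := g.1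
  map_rel_iff' := by
    intro a b
    show (g.1 a ≠ g.1 b ∧ Shr (ac2 g ω) (g.1 a) (g.1 b)) ↔ (a ≠ b ∧ Shr ω a b)
    rw [shr_act]
    simp

theorem reach_act (g : G n m) (ω : Pr n m) (a b : Fin n) :
    (gr (ac2 g ω)).Reachable (g.1 a) (g.1 b) ↔ (gr ω).Reachable a b :=
  (isoG g ω).reachable_iff

theorem cmp_act (g : G n m) (ω : Pr n m) (a : Fin n) :
    cmp (ac2 g ω) (g.1 a) = (cmp ω a).map g.1.toEmbedding := by
  ext b
  obtain ⟨b, rfl⟩ := g.1.surjective b
  unfold cmp
  rw [Finset.mem_filter]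
  simp only [Finset.mem_univ, true_and, Finset.mem_map_equiv, Equiv.symm_apply_apply,
    Finset.mem_filter]
  exact reach_act g ω a b

theorem comps_act (g : G n m) (ω : Pr n m) :
    comps (ac2 g ω) = (comps ω).image (fun κ => κ.map g.1.toEmbedding) := by
  unfold comps
  by_cases hv : Valid2 ω
  · rw [if_pos hv, if_pos ((valid2_act g ω).2 hv)]
    ext κ
    simp only [Finset.mem_image, Finset.mem_univ, true_and, exists_exists_eq_and]
    constructor
    · rintro ⟨a, rfl⟩
      obtain ⟨a, rfl⟩ := g.1.surjective a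
      exact ⟨a, (cmp_act g ω a).symm⟩
    · rintro ⟨a, rfl⟩
      exact ⟨g.1 a, cmp_act g ω a⟩
  · rw [if_neg hv, if_neg (fun h => hv ((valid2_act g ω).1 h))]
    rfl

theorem ch_act (g : G n m) (ω : Pr n m) (κ : Finset (Fin n)) :
    ch (κ.map g.1.toEmbedding) (ac2 g ω) = ch κ ω := by
  unfold ch ac2
  simp only [Finset.sum_map, Equiv.coe_toEmbedding, actC_apply, map_none, map_mark]

theorem fl_act (g : G n m) (ω : Pr n m) (κ : Finset (Fin n)) :
    fl (κ.map g.1.toEmbedding) (ac2 g ω) = ac2 g (fl κ ω) := by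
  unfold fl ac2
  apply Prod.ext
  · funext a
    obtain ⟨a, rfl⟩ := g.1.surjective a
    simp only [Finset.mem_map_equiv, Equiv.symm_apply_apply, actC_apply]
    split_ifs <;> rfl
  · funext a
    obtain ⟨a, rfl⟩ := g.1.surjective a
    simp only [Finset.mem_map_equiv, Equiv.symm_apply_apply, actC_apply]
    split_ifs <;> rfl

theorem sum_act (g : G n m) (ω : Pr n m) (v : ℤ × ℤ) (F : Pr n m → ℂ) :
    ∑ κ ∈ (comps (ac2 g ω)).filter (fun κ => ch κ (ac2 g ω) = -v), F (fl κ (ac2 g ω)) =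
      ∑ κ ∈ (comps ω).filter (fun κ => ch κ ω = -v), F (ac2 g (fl κ ω)) := by
  rw [comps_act, Finset.filter_image, Finset.sum_image]
  · simp only [ch_act, fl_act]
  · intro κ _ κ' _ h
    exact Finset.map_injective _ h

theorem tot_act (g : G n m) (ω : Pr n m) :
    ∑ κ ∈ comps (ac2 g ω), ch κ (ac2 g ω) = ∑ κ ∈ comps ω, ch κ ω := by
  rw [comps_act, Finset.sum_image]
  · simp only [ch_act]
  · intro κ _ κ' _ h
    exact Finset.map_injective _ h

theorem stmt_EQV : Stmt_EQV := by
  intro n m S h1 h2 h3 h4 g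
  refine ⟨fun v => ?_, ?_, fun ω => ?_⟩
  · refine LinearMap.ext fun f => funext fun ω => ?_
    show ∑ κ ∈ (S.comps ω).filter (fun κ => S.ch κ ω = -v), rF2 g f (S.fl κ ω) =
      ∑ κ ∈ (S.comps (ac2 g⁻¹ ω)).filter (fun κ => S.ch κ (ac2 g⁻¹ ω) = -v),
        f (S.fl κ (ac2 g⁻¹ ω))
    rw [h1, h2, h3, sum_act]
    rfl
  · refine LinearMap.ext fun f => funext fun ω => ?_
    show rF2 g f (S.sw ω) = f (S.sw (ac2 g⁻¹ ω))
    rw [h4]
    rfl
  · show ∑ κ ∈ S.comps (ac2 g ω), S.ch κ (ac2 g ω) = ∑ κ ∈ S.comps ω, S.ch κ ω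
    rw [h1, h3, tot_act]

end Pool.RookLC.helper49
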