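import Pool.Agent.Work.MP_6f78fb_rk.Interface

open scoped BigOperators TensorProduct
open Classical

noncomputable section

namespace Pool.RookLC.helper49

variable {n m : ℕ}

theorem val_hom (a : Fin n) (s : St m) :
    (val a s : Poly n m).IsHomogeneous (if s = none then 0 else 1) := by
  rcases s with _ | _ | j
  · simp only [if_true]
    exact MvPolynomial.isHomogeneous_one _ _
  · simp only [reduceCtorEq, if_false]
    exact MvPolynomial.IsHomogeneous.sum _ _ _ (fun j _ => MvPolynomial.isHomogeneous_X _ _)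
  · simp only [reduceCtorEq, if_false]
    exact MvPolynomial.isHomogeneous_X _ _

theorem mon_hom (α : Cf n m) : (mon α).IsHomogeneous (dd α) := by
  have h := MvPolynomial.IsHomogeneous.prod (Finset.univ : Finset (Fin n))
    (fun a => (val a (α a) : Poly n m)) (fun a => if α a = none then 0 else 1)
    (fun a _ => val_hom a (α a))
  have h2 : ∑ a : Fin n, (if α a = none then 0 else 1) = dd α := by
    unfold dd
    rw [Finset.card_filter]
    exact Finset.sum_congr rfl fun a _ => by by_cases h : α a = none <;> simp [h]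
  rw [h2] at h
  exact h

theorem Th_hom {l : Bool} {d h : ℕ} {g : Fn n m} (hg : g ∈ MH n m l d h) :
    (Th n m g).IsHomogeneous d := by
  show (∑ α, g α • mon α).IsHomogeneous d
  refine MvPolynomial.IsHomogeneous.sum _ _ _ (fun α _ => ?_)
  by_cases h0 : g α = 0
  · rw [h0, zero_smul]; exact MvPolynomial.isHomogeneous_zero _ _ _
  · have := (hg.2 α h0).1
    rw [← this, MvPolynomial.smul_eq_C_mul]
    have h1 := (MvPolynomial.isHomogeneous_C (Fin n × Fin m) (g α)).mul (mon_hom α)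
    rwa [zero_add] at h1

/-- the map `MH d → V d` -/
def pim (n m r : ℕ) (l : Bool) (d h : ℕ) : MH n m l d h →ₗ[ℂ] V n m r d :=
  LinearMap.codRestrict (V n m r d)
    ((Ideal.Quotient.mkₐ ℂ (grI (UZ n m r))).toLinearMap ∘ₗ Th n m ∘ₗ (MH n m l d h).subtype)
    (fun g => ⟨Th n m g, by
      rw [SetLike.mem_coe, MvPolynomial.mem_homogeneousSubmodule]
      exact Th_hom g.2, rfl⟩)

theorem pim_val {r : ℕ} {l : Bool} {d h : ℕ} (g : MH n m l d h) :
    ((pim n m r l d h g : V n m r d) : RR n m r) =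
      Ideal.Quotient.mk (grI (UZ n m r)) (Th n m (g : Fn n m)) := rfl

theorem pim_surj (hS : Stmt_THS) {r : ℕ} {l : Bool} (d : ℕ) (hr : r ≤ n)
    (hl : l = true → r = m) : Function.Surjective (pim n m r l d (n - r)) := by
  rintro ⟨v, f, hf, rfl⟩
  rw [SetLike.mem_coe, MvPolynomial.mem_homogeneousSubmodule] at hf
  obtain ⟨g, hg, h⟩ := hS n m r d l hr hl f hf
  refine ⟨⟨g, hg⟩, Subtype.ext ?_⟩
  rw [pim_val]
  exact ((Ideal.Quotient.mk_eq_mk_iff_sub_mem _ _).2 h).symm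

/-- equivariance -/
def Eqv {Γ V W : Type*} [AddCommMonoid V] [Module ℂ V] [AddCommMonoid W] [Module ℂ W]
    (ρ : Γ → V →ₗ[ℂ] V) (σ : Γ → W →ₗ[ℂ] W) (f : V →ₗ[ℂ] W) : Prop :=
  ∀ g v, f (ρ g v) = σ g (f v)

section eqv
variable {Γ V W X V' W' : Type*} [AddCommMonoid V] [Module ℂ V] [AddCommMonoid W] [Module ℂ W]
  [AddCommMonoid X] [Module ℂ X] [AddCommMonoid V'] [Module ℂ V'] [AddCommMonoid W'] [Module ℂ W']

theorem Eqv.comp {ρ : Γ → V →ₗ[ℂ] V} {σ : Γ → W →ₗ[ℂ] W} {τ : Γ → X →ₗ[ℂ] X}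
    {f : V →ₗ[ℂ] W} {k : W →ₗ[ℂ] X} (hf : Eqv ρ σ f) (hk : Eqv σ τ k) : Eqv ρ τ (k ∘ₗ f) := by
  intro g v
  rw [LinearMap.comp_apply, hf, hk, LinearMap.comp_apply]

theorem Eqv.symm {ρ : Γ → V →ₗ[ℂ] V} {σ : Γ → W →ₗ[ℂ] W} {e : V ≃ₗ[ℂ] W}
    (hf : Eqv ρ σ (e : V →ₗ[ℂ] W)) : Eqv σ ρ (e.symm : W →ₗ[ℂ] V) := by
  intro g w
  have := hf g (e.symm w)
  simp only [LinearEquiv.coe_coe, LinearEquiv.apply_symm_apply] at this ⊢
  rw [← this, LinearEquiv.symm_apply_apply]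

theorem Eqv.map {ρ : Γ → V →ₗ[ℂ] V} {σ : Γ → W →ₗ[ℂ] W} {ρ' : Γ → V' →ₗ[ℂ] V'}
    {σ' : Γ → W' →ₗ[ℂ] W'} {f : V →ₗ[ℂ] W} {f' : V' →ₗ[ℂ] W'} (hf : Eqv ρ σ f)
    (hf' : Eqv ρ' σ' f') :
    Eqv (fun g => TensorProduct.map (ρ g) (ρ' g)) (fun g => TensorProduct.map (σ g) (σ' g))
      (TensorProduct.map f f') := by
  intro g v
  have : (TensorProduct.map f f') ∘ₗ (TensorProduct.map (ρ g) (ρ' g)) =
      (TensorProduct.map (σ g) (σ' g)) ∘ₗ (TensorProduct.map f f') := by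
    rw [← TensorProduct.map_comp, ← TensorProduct.map_comp]
    congr 1
    · ext x; exact hf g x
    · ext x; exact hf' g x
  exact LinearMap.congr_fun this v
end eqv

/-- action on `MH` -/
def rM (hA : Stmt_ACT) (n m : ℕ) (l : Bool) (d h : ℕ) (g : G n m) :
    MH n m l d h →ₗ[ℂ] MH n m l d h :=
  (rF g).restrict (fun f hf => (hA n m).2.2.2.2.1 g l d h f hf)

/-- action on `UH ⊓ S2` -/
def rU (hA : Stmt_ACT) (n m : ℕ) (l : Bool) (P : ℕ → ℕ → ℕ → ℕ → Prop) (g : G n m) :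
    ↥(UH n m l ⊓ S2 n m P) →ₗ[ℂ] ↥(UH n m l ⊓ S2 n m P) :=
  (rF2 g).restrict (fun f hf => (hA n m).2.2.2.2.2.1 g l P f hf)

theorem pim_eqv (hA : Stmt_ACT) (n m r : ℕ) (l : Bool) (d h : ℕ) :
    Eqv (rM hA n m l d h) (actV n m r d) (pim n m r l d h) := by
  intro g x
  apply Subtype.ext
  rw [pim_val]
  show Ideal.Quotient.mk _ (Th n m (rF g (x : Fn n m))) = _
  rw [(hA n m).2.2.2.2.2.2.2 g x]
  rfl

theorem range_eq {l : Bool} {d d' h : ℕ}
    {e : (MH n m l d h ⊗[ℂ] MH n m l d' h) →ₗ[ℂ] (Cf n m × Cf n m → ℂ)}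
    (he : ∀ F : Cf n m × Cf n m → ℂ, F ∈ LinearMap.range e ↔
      (∀ b, (fun a => F (a, b)) ∈ MH n m l d h) ∧ (∀ a, (fun b => F (a, b)) ∈ MH n m l d' h)) :
    LinearMap.range e = UH n m l ⊓ S2 n m (PP d d' h) := by
  ext F
  rw [he]
  constructor
  · rintro ⟨h1, h2⟩
    refine ⟨⟨fun β => (h1 β).1, fun α => (h2 α).1⟩, ?_⟩
    rintro ⟨α, β⟩ hF
    exact ⟨((h1 β).2 α hF).1, ((h2 α).2 β hF).1, ((h1 β).2 α hF).2, ((h2 α).2 β hF).2⟩
  · rintro ⟨⟨h1, h2⟩, h3⟩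
    refine ⟨fun β => ⟨h1 β, fun α hF => ?_⟩, fun α => ⟨h2 α, fun β hF => ?_⟩⟩
    · have := h3 (α, β) hF
      exact ⟨this.1, this.2.2.1⟩
    · have := h3 (α, β) hF
      exact ⟨this.2.1, this.2.2.2⟩

/-- tensor products of the `MH` are the `UH` -/
theorem tens_equiv (hT : Stmt_TENS) (hA : Stmt_ACT) (n m : ℕ) (l : Bool) (d d' h : ℕ) :
    ∃ e : (MH n m l d h ⊗[ℂ] MH n m l d' h) ≃ₗ[ℂ] ↥(UH n m l ⊓ S2 n m (PP d d' h)),
      Eqv (fun g => TensorProduct.map (rM hA n m l d h g) (rM hA n m l d' h g))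
        (rU hA n m l (PP d d' h)) e.toLinearMap := by
  obtain ⟨e, hinj, htmul, hran⟩ := hT (Cf n m) (Cf n m) (MH n m l d h) (MH n m l d' h)
  have hr := range_eq hran
  refine ⟨(LinearEquiv.ofInjective e hinj).trans (LinearEquiv.ofEq _ _ hr), ?_⟩
  intro g v
  apply Subtype.ext
  show e (TensorProduct.map (rM hA n m l d h g) (rM hA n m l d' h g) v) = rF2 g (e v)
  induction v using TensorProduct.induction_on with
  | zero => simp
  | add x y hx hy => rw [map_add, map_add, map_add, map_add, hx, hy]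
  | tmul x y =>
    rw [TensorProduct.map_tmul]
    funext ω
    obtain ⟨a, b⟩ := ω
    rw [htmul]
    show _ = e (x ⊗ₜ[ℂ] y) (actC g⁻¹ a, actC g⁻¹ b)
    rw [htmul]
    rfl

/-- the core of the argument -/
theorem core (hP : Stmt_PROJ) (hT : Stmt_TENS) (hLT : Stmt_LT) (hFM : Stmt_FM) (hA : Stmt_ACT)
    (hS : Stmt_THS) (n m r i : ℕ) (l : Bool) (hr : r ≤ n) (hl : l = true → r = m) (hi : 1 ≤ i)
    (hfin : Module.finrank ℂ ↥(NH n m l ⊓ S2 n m (PP i i (n - r))) ≤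
      Module.finrank ℂ ↥(UH n m l ⊓ S2 n m (PP i i (n - r))))
    (hinj : ∀ g ∈ MH n m l i (n - r), Th n m g ∈ grI (UZ n m r) → g = 0) : Surj n m r i := by
  obtain ⟨h, hh⟩ : ∃ h, h = n - r := ⟨_, rfl⟩
  rw [← hh] at hfin hinj
  obtain ⟨Ψ, hΨ1, hΨ2⟩ := hFM n m l (i - 1) h
  have e1 : i - 1 + 2 = i + 1 := by omega
  have e2 : i - 1 + 1 = i := by omega
  rw [e1, e2] at hΨ2
  obtain ⟨Θ, hΘ1, hΘ2⟩ := hLT n m l (PP (i - 1) (i + 1) h)
  obtain ⟨Θ', hΘ1', hΘ2'⟩ := hLT n m l (PP i i h)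
  obtain ⟨Us, hUs⟩ : ∃ Us, Us = UH n m l ⊓ S2 n m (PP (i - 1) (i + 1) h) := ⟨_, rfl⟩
  obtain ⟨Ut, hUt⟩ : ∃ Ut, Ut = UH n m l ⊓ S2 n m (PP i i h) := ⟨_, rfl⟩
  obtain ⟨Nt, hNt⟩ : ∃ Nt, Nt = NH n m l ⊓ S2 n m (PP i i h) := ⟨_, rfl⟩
  -- the image of `Ut` under `Θ'` is `Nt`
  have hmap : Ut.map Θ' = Nt := by
    have h1 : Ut.map Θ' ≤ Nt := by
      rw [Submodule.map_le_iff_le_comap]
      intro f hf
      rw [hUt] at hf
      rw [hNt]
      exact (hΘ2' f hf).1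
    apply Submodule.eq_of_le_of_finrank_le h1
    have h2 : Module.finrank ℂ ↥(Ut.map Θ') = Module.finrank ℂ ↥Ut := by
      have hinj' : Function.Injective (Θ'.domRestrict Ut) := by
        rw [← LinearMap.ker_eq_bot, LinearMap.ker_eq_bot']
        intro x hx
        apply Subtype.ext
        exact (hΘ2' x (hUt ▸ x.2)).2 hx
      have h3 := LinearMap.finrank_range_of_inj hinj'
      rw [LinearMap.range_domRestrict] at h3
      exact h3
    rw [h2, hUt, hNt]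
    exact hfin
  -- the embedding of `Us`
  have hΓ : ∀ g k : G n m, rF2 (g * k) = rF2 g ∘ₗ rF2 k := by
    intro g k
    refine LinearMap.ext fun f => funext fun ω => ?_
    show f (actC (g * k)⁻¹ ω.1, actC (g * k)⁻¹ ω.2) = f (actC k⁻¹ (actC g⁻¹ ω.1), _)
    rw [mul_inv_rev, (hA n m).1, (hA n m).1]
  have hΓ1 : rF2 (1 : G n m) = LinearMap.id := by
    refine LinearMap.ext fun f => funext fun ω => ?_
    show f (actC (1 : G n m)⁻¹ ω.1, actC (1 : G n m)⁻¹ ω.2) = f ω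
    rw [inv_one, (hA n m).2.1, (hA n m).2.1]
  obtain ⟨ι, hι⟩ : ∃ ι : Fn2 n m →ₗ[ℂ] Fn2 n m, ι = Ψ ∘ₗ Θ := ⟨_, rfl⟩
  have hιe : ∀ g x, ι (rF2 g x) = rF2 g (ι x) := by
    intro g x
    rw [hι, LinearMap.comp_apply, LinearMap.comp_apply]
    have h1 := LinearMap.congr_fun (hΘ1 g) x
    have h2 := LinearMap.congr_fun (hΨ1 g) (Θ x)
    rw [LinearMap.comp_apply, LinearMap.comp_apply] at h1 h2
    rw [h1, h2]
  have hι1 : ∀ f ∈ Us, ι f ∈ Nt ∧ (ι f = 0 → f = 0) := by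
    intro f hf
    rw [hUs] at hf
    have h1 := hΘ2 f hf
    have h2 := hΨ2 _ h1.1
    rw [hNt, hι]
    exact ⟨h2.1, fun h3 => h1.2 (h2.2 h3)⟩
  obtain ⟨P, hP1, hP2, hP3⟩ := hP (G n m) (Fn2 n m) rF2 hΓ hΓ1 (Us.map ι) (by
    rintro g _ ⟨f, hf, rfl⟩
    refine ⟨rF2 g f, ?_, hιe g f⟩
    rw [hUs] at hf ⊢
    exact (hA n m).2.2.2.2.2.1 g l _ f hf)
  have hιinj : Function.Injective (ι.domRestrict Us) := by
    rw [← LinearMap.ker_eq_bot, LinearMap.ker_eq_bot']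
    intro x hx
    apply Subtype.ext
    exact (hι1 x x.2).2 hx
  -- `Us ≃ Us.map ι`
  obtain ⟨E, hE⟩ : ∃ E : ↥Us ≃ₗ[ℂ] ↥(Us.map ι), ∀ x, ((E x : ↥(Us.map ι)) : Fn2 n m) = ι x := by
    refine ⟨(LinearEquiv.ofInjective _ hιinj).trans (LinearEquiv.ofEq _ _ ?_), fun x => rfl⟩
    rw [LinearMap.range_domRestrict]
  -- the retraction
  obtain ⟨ρ, hρ⟩ : ∃ ρ : ↥Ut →ₗ[ℂ] ↥Us,
      ρ = (E.symm : ↥(Us.map ι) →ₗ[ℂ] ↥Us) ∘ₗ (P.codRestrict (Us.map ι) hP1) ∘ₗ Θ' ∘ₗ Ut.subtype :=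
    ⟨_, rfl⟩
  have hρs : Function.Surjective ρ := by
    intro y
    have h1 : ι y ∈ Ut.map Θ' := by
      rw [hmap]; exact (hι1 y y.2).1
    obtain ⟨x, hx, hxy⟩ := h1
    refine ⟨⟨x, hx⟩, ?_⟩
    rw [hρ]
    simp only [LinearMap.comp_apply, LinearEquiv.coe_coe, Submodule.subtype_apply]
    rw [LinearEquiv.symm_apply_eq]
    apply Subtype.ext
    rw [hE]
    show P (Θ' x) = _
    rw [hxy]
    exact hP2 _ ⟨y, y.2, rfl⟩
  subst hUs
  subst hUt
  have hρe : Eqv (rU hA n m l (PP i i h)) (rU hA n m l (PP (i - 1) (i + 1) h)) ρ := by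
    intro g x
    rw [hρ]
    simp only [LinearMap.comp_apply, LinearEquiv.coe_coe, Submodule.subtype_apply]
    rw [LinearEquiv.symm_apply_eq]
    apply Subtype.ext
    rw [hE]
    obtain ⟨y, hy⟩ : ∃ y, y = E.symm ((P.codRestrict (Submodule.map ι _) hP1) (Θ' (x : Fn2 n m))) :=
      ⟨_, rfl⟩
    have h3 : ι (y : Fn2 n m) = P (Θ' (x : Fn2 n m)) := by
      rw [← hE, hy, LinearEquiv.apply_symm_apply]
      rfl
    rw [← hy]
    show P (Θ' (rF2 g (x : Fn2 n m))) = ι (rF2 g (y : Fn2 n m))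
    rw [hιe, h3]
    have h1 := LinearMap.congr_fun (hΘ1' g) (x : Fn2 n m)
    have h2 := LinearMap.congr_fun (hP3 g) (Θ' (x : Fn2 n m))
    rw [LinearMap.comp_apply, LinearMap.comp_apply] at h1 h2
    rw [h1, h2]
  obtain ⟨es, hes⟩ := tens_equiv hT hA n m l (i - 1) (i + 1) h
  obtain ⟨et, het⟩ := tens_equiv hT hA n m l i i h
  have hpi : Function.Bijective (pim n m r l i h) := by
    constructor
    · rw [← LinearMap.ker_eq_bot, LinearMap.ker_eq_bot']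
      intro x hx
      apply Subtype.ext
      refine hinj x x.2 ?_
      have := congrArg (fun v : V n m r i => (v : RR n m r)) hx
      simp only [pim_val] at this
      exact Ideal.Quotient.eq_zero_iff_mem.1 this
    · rw [hh]; exact pim_surj hS i hr hl
  obtain ⟨pe, hpe⟩ : ∃ pe : MH n m l i h ≃ₗ[ℂ] V n m r i, pe.toLinearMap = pim n m r l i h :=
    ⟨LinearEquiv.ofBijective _ hpi, rfl⟩
  have hpee : Eqv (rM hA n m l i h) (actV n m r i) pe.toLinearMap := by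
    rw [hpe]; exact pim_eqv hA n m r l i h
  obtain ⟨Φ, hΦ⟩ : ∃ Φ : (V n m r i ⊗[ℂ] V n m r i) →ₗ[ℂ] (V n m r (i - 1) ⊗[ℂ] V n m r (i + 1)),
    Φ = (TensorProduct.map (pim n m r l (i - 1) h) (pim n m r l (i + 1) h)) ∘ₗ
      (es.symm.toLinearMap ∘ₗ (ρ ∘ₗ (et.toLinearMap ∘ₗ
        TensorProduct.map pe.symm.toLinearMap pe.symm.toLinearMap))) := ⟨_, rfl⟩
  refine ⟨Φ, ?_, ?_⟩
  · rw [hΦ]
    have s1 : Function.Surjective (TensorProduct.map (pim n m r l (i - 1) h)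
        (pim n m r l (i + 1) h)) := by
      rw [hh]
      exact TensorProduct.map_surjective (pim_surj hS _ hr hl) (pim_surj hS _ hr hl)
    have s2 : Function.Surjective (TensorProduct.map pe.symm.toLinearMap
        pe.symm.toLinearMap) :=
      TensorProduct.map_surjective pe.symm.surjective pe.symm.surjective
    rw [LinearMap.coe_comp, LinearMap.coe_comp, LinearMap.coe_comp, LinearMap.coe_comp]
    exact s1.comp (es.symm.surjective.comp (hρs.comp (et.surjective.comp s2)))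
  · intro g
    have hE2 := (((((hpee.symm.map hpee.symm).comp het).comp hρe).comp hes.symm).comp
      ((pim_eqv hA n m r l (i - 1) h).map (pim_eqv hA n m r l (i + 1) h)))
    ext1
    ext v w
    have := hE2 g (v ⊗ₜ[ℂ] w)
    rw [hΦ]
    exact this

theorem dd_le (α : Cf n m) : dd α ≤ n := by
  unfold dd
  exact (Finset.card_le_univ _).trans (by simp)

theorem V_bot (hS : Stmt_THS) {r d : ℕ} (hr : r ≤ n) (hd : n < d) : V n m r d = ⊥ := by
  rw [Submodule.eq_bot_iff]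
  intro v hv
  obtain ⟨g, hg⟩ := pim_surj (l := false) hS d hr (by simp) (⟨v, hv⟩ : V n m r d)
  have h0 : g = 0 := by
    apply Subtype.ext
    funext α
    by_contra h
    have h1 := (g.2.2 α h).1
    have h2 := dd_le α
    omega
  rw [h0, map_zero] at hg
  exact (congrArg Subtype.val hg).symm

theorem stmt_MAIN (hP : Stmt_PROJ) (hT : Stmt_TENS) (hLT : Stmt_LT) (hFIN : Stmt_FIN)
    (hFIN2 : Stmt_FIN2) (hFM : Stmt_FM) (hA : Stmt_ACT) (hS : Stmt_THS) (hI : Stmt_THI)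
    (hI2 : Stmt_THI2) : Stmt_MAIN := by
  have hM : ∀ n m r i : ℕ, r ≤ n → r ≤ m → 1 ≤ i → 4 * i ≤ m → r + i ≤ m → Surj n m r i :=
    fun n m r i hr hrm hi h4 hri =>
      core hP hT hLT hFM hA hS n m r i false hr (by simp) hi (hFIN n m i (n - r) h4)
        (hI n m r i hr hri (by omega))
  refine ⟨hM, fun n m i hmn hi h4 => ?_, fun n m r hr1 hr h4 N hN i hi hiN => ?_⟩
  · exact core hP hT hLT hFM hA hS n m m i true hmn (fun _ => rfl) hi
      (hFIN2 n m i (n - m) h4 (by omega)) (hI2 n m i hmn (by omega))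
  · have hNn : N ≤ n := by
      by_contra h
      exact hN.1 (V_bot hS hr (by omega))
    exact hM n m r i hr (by omega) (by omega) (by omega) (by omega)

end Pool.RookLC.helper49
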