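import Pool.Agent.Work.MP_6f78fb_rk_helper49.NST

open scoped BigOperators TensorProduct
open Classical

noncomputable section

namespace Pool.RookLC.helper49

variable {n m : ℕ}

theorem free_sub (A B : Cf n m) : free A B ⊆ supp A := by
  intro a ha
  unfold free at ha
  unfold supp
  rw [Finset.mem_filter] at ha ⊢
  obtain ⟨_, x, hx, _⟩ := ha
  exact ⟨Finset.mem_univ _, by rw [hx]; simp⟩

theorem dd_mk {A : Cf n m} {T : Finset (Fin n)} (h : T ⊆ supp A) : dd (mk A T) = dd A := by
  unfold dd
  congr 1
  ext a
  simp only [Finset.mem_filter, Finset.mem_univ, true_and]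
  unfold mk
  by_cases ha : a ∈ T
  · have := h ha
    unfold supp at this
    rw [Finset.mem_filter] at this
    simp [ha, this.2]
  · simp [ha]

theorem mk_none {A : Cf n m} {T : Finset (Fin n)} (h : T ⊆ supp A) (b : Fin n) :
    mk A T b = none ↔ A b = none := by
  unfold mk
  by_cases hb : b ∈ T
  · have := h hb
    unfold supp at this
    rw [Finset.mem_filter] at this
    simp [hb, this.2]
  · simp [hb]

theorem mk_update {A : Cf n m} {T : Finset (Fin n)} {b : Fin n} (hb : b ∉ T) (s : St m) :
    mk (Function.update A b s) T = Function.update (mk A T) b s := by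
  funext c
  unfold mk
  by_cases hc : c = b
  · subst hc; simp [hb]
  · rw [Function.update_of_ne hc, Function.update_of_ne hc]

theorem mk_insert {A : Cf n m} {T : Finset (Fin n)} {b : Fin n} (s : St m) :
    mk (Function.update A b s) (insert b T) = Function.update (mk A T) b (some none) := by
  funext c
  unfold mk
  by_cases hc : c = b
  · subst hc; simp
  · rw [Function.update_of_ne hc, Function.update_of_ne hc]
    simp [hc]

theorem tt_update_col {α : Cf n m} {b : Fin n} (hb : α b = none) (j : Fin m) :
    tt (Function.update α b (some (some j))) = tt α := by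
  unfold tt
  congr 1
  ext c
  simp only [Finset.mem_filter, Finset.mem_univ, true_and]
  by_cases hc : c = b
  · subst hc; simp [hb]
  · rw [Function.update_of_ne hc]

theorem tt_update_mark {α : Cf n m} {b : Fin n} :
    tt (Function.update α b (some none)) ≠ 0 := by
  unfold tt
  rw [Finset.card_ne_zero]
  exact ⟨b, by simp⟩

theorem cols_update {α : Cf n m} {b : Fin n} (hb : α b = none) (j x : Fin m) :
    x ∈ cols (Function.update α b (some (some j))) ↔ x = j ∨ x ∈ cols α := by
  rw [mem_cols, mem_cols]
  constructor
  · rintro ⟨a, ha⟩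
    by_cases hab : a = b
    · subst hab
      rw [Function.update_self] at ha
      simp only [Option.some.injEq] at ha
      exact Or.inl ha.symm
    · rw [Function.update_of_ne hab] at ha
      exact Or.inr ⟨a, ha⟩
  · rintro (rfl | ⟨a, ha⟩)
    · exact ⟨b, Function.update_self _ _ _⟩
    · have hab : a ≠ b := by rintro rfl; rw [hb] at ha; simp at ha
      exact ⟨a, by rw [Function.update_of_ne hab]; exact ha⟩

theorem lop2_eval (g : Fn2 n m) (ω : Pr n m) : Lop2 n m g ω =
    if Valid2 ω ∧ tt ω.1 = 0 ∧ tt ω.2 = 0 then
    ∑ T ∈ (free ω.1 ω.2).powerset, ∑ T' ∈ (free ω.2 ω.1).powerset, g (mk ω.1 T, mk ω.2 T')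
    else 0 := rfl

theorem lop2_nlab1 {g : Fn2 n m} (hg : NLab g) (α β : Cf n m) (s : Option (Fin m)) :
    ∑ b ∈ Finset.univ.filter (fun b => α b = none ∧ β b = none),
      Lop2 n m g (Function.update α b (some s), β) = 0 := by
  obtain ⟨B, hB⟩ : ∃ B : Finset (Fin n), B = Finset.univ.filter
    (fun b => α b = none ∧ β b = none) := ⟨_, rfl⟩
  have hBm : ∀ b, b ∈ B ↔ (α b = none ∧ β b = none) := by
    intro b; rw [hB]; simp
  rw [← hB]
  rcases s with _ | j
  · refine Finset.sum_eq_zero fun b _ => ?_
    rw [lop2_eval, if_neg]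
    rintro ⟨_, h, _⟩
    exact tt_update_mark h
  · by_cases hC : (Valid α ∧ j ∉ cols α) ∧ Valid β ∧ tt α = 0 ∧ tt β = 0
    swap
    · refine Finset.sum_eq_zero fun b hb => ?_
      obtain ⟨hα, hβ⟩ := (hBm b).1 hb
      rw [lop2_eval, if_neg]
      rintro ⟨h1, h2, h3⟩
      refine hC ⟨(valid_update_iff hα).1 h1.1, h1.2, ?_, h3⟩
      rwa [tt_update_col hα] at h2
    obtain ⟨F', hF'⟩ : ∃ F' : Finset (Fin n), F' = Finset.univ.filter
      (fun a => ∃ x, β a = some (some x) ∧ ¬ (x = j ∨ x ∈ cols α)) := ⟨_, rfl⟩
    have hF's : F' ⊆ supp β := by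
      intro a ha
      rw [hF', Finset.mem_filter] at ha
      obtain ⟨_, x, hx, _⟩ := ha
      unfold supp
      rw [Finset.mem_filter]
      exact ⟨Finset.mem_univ _, by rw [hx]; simp⟩
    have key : ∀ (T T' : Finset (Fin n)) (t : Option (Fin m)), T ⊆ supp α → T' ⊆ supp β →
        ∑ b ∈ B, g (Function.update (mk α T) b (some t), mk β T') = 0 := by
      intro T T' t hT hT'
      have := hg.1 (mk α T) (mk β T') t
      simp only [mk_none hT, mk_none hT'] at this
      rw [← hB] at this
      exact this
    have h1 : ∀ b ∈ B, Lop2 n m g (Function.update α b (some (some j)), β) =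
        ∑ T ∈ (free α β).powerset, ∑ T' ∈ F'.powerset,
          g (Function.update (mk α T) b (some (some j)), mk β T') +
        (if j ∉ cols β then ∑ T ∈ (free α β).powerset, ∑ T' ∈ F'.powerset,
          g (Function.update (mk α T) b (some none), mk β T') else 0) := by
      intro b hb
      obtain ⟨hα, hβ⟩ := (hBm b).1 hb
      have hbf : b ∉ free α β := by
        intro h
        have := free_sub α β h
        unfold supp at this
        rw [Finset.mem_filter] at this
        exact this.2 hα
      rw [lop2_eval, if_pos ⟨⟨(valid_update_iff hα).2 hC.1, hC.2.1⟩, by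
        rw [tt_update_col hα]; exact hC.2.2.1, hC.2.2.2⟩]
      have e1 : free β (Function.update α b (some (some j))) = F' := by
        rw [hF']
        unfold free
        ext a
        simp only [Finset.mem_filter, Finset.mem_univ, true_and, cols_update hα]
      simp only
      rw [e1]
      by_cases hj : j ∈ cols β
      · have e2 : free (Function.update α b (some (some j))) β = free α β := by
          unfold free
          ext a
          simp only [Finset.mem_filter, Finset.mem_univ, true_and]
          by_cases hab : a = b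
          · subst hab
            rw [Function.update_self, hα]
            simp [hj]
          · rw [Function.update_of_ne hab]
        rw [e2, if_neg (not_not.2 hj), add_zero]
        refine Finset.sum_congr rfl fun T hT => Finset.sum_congr rfl fun T' _ => ?_
        rw [mk_update (fun h => hbf (Finset.mem_powerset.1 hT h))]
      · have e2 : free (Function.update α b (some (some j))) β = insert b (free α β) := by
          unfold free
          ext a
          simp only [Finset.mem_filter, Finset.mem_univ, true_and, Finset.mem_insert]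
          by_cases hab : a = b
          · subst hab
            rw [Function.update_self]
            simp [hj]
          · rw [Function.update_of_ne hab]
            simp [hab]
        rw [e2, if_pos hj, Finset.sum_powerset_insert hbf]
        congr 1
        · refine Finset.sum_congr rfl fun T hT => Finset.sum_congr rfl fun T' _ => ?_
          rw [mk_update (fun h => hbf (Finset.mem_powerset.1 hT h))]
        · refine Finset.sum_congr rfl fun T hT => Finset.sum_congr rfl fun T' _ => ?_
          rw [mk_insert]
    rw [Finset.sum_congr rfl h1, Finset.sum_add_distrib]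
    have z1 : ∀ t : Option (Fin m), ∑ b ∈ B, ∑ T ∈ (free α β).powerset, ∑ T' ∈ F'.powerset,
        g (Function.update (mk α T) b (some t), mk β T') = 0 := by
      intro t
      rw [Finset.sum_comm]
      refine Finset.sum_eq_zero fun T hT => ?_
      rw [Finset.sum_comm]
      refine Finset.sum_eq_zero fun T' hT' => ?_
      exact key T T' t ((Finset.mem_powerset.1 hT).trans (free_sub α β))
        ((Finset.mem_powerset.1 hT').trans hF's)
    rw [z1, zero_add]
    by_cases hj : j ∉ cols β
    · simp only [hj, not_false_eq_true, if_true]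
      exact z1 none
    · simp only [hj, if_false, Finset.sum_const_zero]

theorem lop2_swap (g : Fn2 n m) : sgf (Lop2 n m g) = Lop2 n m (sgf g) := by
  funext ω
  show Lop2 n m g ω.swap = _
  rw [lop2_eval, lop2_eval]
  have h : (Valid2 ω.swap ∧ tt ω.swap.1 = 0 ∧ tt ω.swap.2 = 0) ↔
      (Valid2 ω ∧ tt ω.1 = 0 ∧ tt ω.2 = 0) := by
    unfold Valid2
    simp only [Prod.fst_swap, Prod.snd_swap]
    tauto
  by_cases hc : Valid2 ω ∧ tt ω.1 = 0 ∧ tt ω.2 = 0
  · rw [if_pos hc, if_pos (h.2 hc), Finset.sum_comm]
    rfl
  · rw [if_neg hc, if_neg (fun h' => hc (h.1 h'))]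

theorem stmt_L2LAB : Stmt_L2LAB := by
  intro n m i g hg
  obtain ⟨hg1, hg2⟩ := hg
  refine ⟨fun ω hω => ?_, fun α β s => lop2_nlab1 (hg1.2.2 rfl) α β s, fun α β s => ?_⟩
  · rw [lop2_eval] at hω
    split_ifs at hω with hc
    · obtain ⟨T, hT, h1⟩ := Finset.exists_ne_zero_of_sum_ne_zero hω
      obtain ⟨T', hT', h2⟩ := Finset.exists_ne_zero_of_sum_ne_zero h1
      have h3 := hg2 _ h2
      simp only at h3
      rw [dd_mk ((Finset.mem_powerset.1 hT).trans (free_sub _ _)),
        dd_mk ((Finset.mem_powerset.1 hT').trans (free_sub _ _))] at h3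
      exact ⟨⟨hc.1.1, hc.2.1, h3.1⟩, ⟨hc.1.2, hc.2.2, h3.2⟩⟩
    · exact absurd rfl hω
  · have h1 := lop2_nlab1 ((sg_NH hg1).2.2 rfl) β α s
    rw [← lop2_swap] at h1
    rw [← h1]
    refine Finset.sum_congr ?_ fun _ _ => rfl
    ext b
    simp [and_comm]

end Pool.RookLC.helper49
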