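import Pool.Agent.Work.MP_6f78fb_rk.Interface

open scoped BigOperators TensorProduct
open Classical

noncomputable section

namespace Pool.RookLC.helper49

variable {n m : ℕ}

def rho (n m : ℕ) (a : Fin n) : Poly n m := ∑ j, MvPolynomial.X (a, j)

theorem rho_hom (a : Fin n) : (rho n m a).IsHomogeneous 1 :=
  MvPolynomial.IsHomogeneous.sum _ _ _ (fun j _ => MvPolynomial.isHomogeneous_X _ _)

theorem rho_deg (a : Fin n) : (rho n m a).totalDegree ≤ 1 := (rho_hom a).totalDegree_le

theorem rho1_deg (a : Fin n) : (rho n m a - 1).totalDegree ≤ 1 := by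
  refine (MvPolynomial.totalDegree_sub _ _).trans (max_le (rho_deg a) ?_)
  rw [MvPolynomial.totalDegree_one]
  exact Nat.zero_le _

theorem prod1_deg (T : Finset (Fin n)) : (∏ a ∈ T, (rho n m a - 1)).totalDegree ≤ T.card := by
  refine (MvPolynomial.totalDegree_finset_prod _ _).trans ?_
  refine (Finset.sum_le_sum fun a _ => rho1_deg a).trans ?_
  simp

theorem prod_low (T : Finset (Fin n)) :
    ∏ a ∈ T, (rho n m a - 1) - ∏ a ∈ T, rho n m a = 0 ∨
    (∏ a ∈ T, (rho n m a - 1) - ∏ a ∈ T, rho n m a).totalDegree < T.card := by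
  induction T using Finset.induction_on with
  | empty => left; simp
  | insert a T ha ih =>
    right
    rw [Finset.prod_insert ha, Finset.prod_insert ha, Finset.card_insert_of_notMem ha]
    have h1 : (rho n m a - 1) * ∏ b ∈ T, (rho n m b - 1) - rho n m a * ∏ b ∈ T, rho n m b =
        rho n m a * (∏ b ∈ T, (rho n m b - 1) - ∏ b ∈ T, rho n m b) -
          ∏ b ∈ T, (rho n m b - 1) := by ring
    rw [h1]
    refine lt_of_le_of_lt (MvPolynomial.totalDegree_sub _ _) (max_lt ?_ ?_)
    · rcases ih with h | h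
      · rw [h, mul_zero, MvPolynomial.totalDegree_zero]; omega
      · refine lt_of_le_of_lt (MvPolynomial.totalDegree_mul _ _) ?_
        have := rho_deg (n := n) (m := m) a
        omega
    · exact lt_of_le_of_lt (prod1_deg T) (by omega)

theorem row_sum {M : Fin n × Fin m → ℂ} (hM : IsRook M) {a : Fin n} {j : Fin m}
    (h : M (a, j) = 1) : ∑ k, M (a, k) = 1 := by
  rw [Finset.sum_eq_single j]
  · exact h
  · intro k _ hk
    rcases hM.1 (a, k) with h0 | h0
    · exact h0
    · exact absurd (hM.2.1 a k j h0 h) hk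
  · intro h'; exact absurd (Finset.mem_univ _) h'

theorem exists_row {r : ℕ} {M : Fin n × Fin m → ℂ} (hM : M ∈ UZ n m r) (T : Finset (Fin n))
    (hT : n < r + T.card) : ∃ a ∈ T, ∃ j, M (a, j) = 1 := by
  by_contra hcon
  have h1 : ∀ a ∈ T, ∀ j, M (a, j) ≠ 1 := fun a ha j hj => hcon ⟨a, ha, j, hj⟩
  have h2 : (Finset.univ.filter fun p => M p = 1).card ≤ Tᶜ.card := by
    refine Finset.card_le_card_of_injOn (fun p => p.1) ?_ ?_
    · rintro ⟨a, j⟩ hp
      simp only [Finset.coe_filter, Finset.mem_univ, true_and, Set.mem_setOf_eq] at hp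
      simp only [Finset.coe_compl, Set.mem_compl_iff, Finset.mem_coe]
      exact fun ha => h1 a ha j hp
    · rintro ⟨a, j⟩ hp ⟨b, k⟩ hq h
      simp only [Finset.coe_filter, Finset.mem_univ, true_and, Set.mem_setOf_eq] at hp hq h
      subst h
      rw [hM.1.2.1 a j k hp hq]
  rw [Finset.card_compl, Fintype.card_fin] at h2
  have h3 := hM.2
  have h4 : T.card ≤ n := by
    have := Finset.card_le_univ T
    rwa [Fintype.card_fin] at this
  omega

theorem prod_rho_mem (hRG : Stmt_RG) {r : ℕ} (T : Finset (Fin n)) (hT : n < r + T.card) :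
    ∏ a ∈ T, rho n m a ∈ grI (UZ n m r) := by
  have hom : (∏ a ∈ T, rho n m a).IsHomogeneous T.card := by
    have := MvPolynomial.IsHomogeneous.prod T (fun a => rho n m a) (fun _ => 1)
      (fun a _ => rho_hom a)
    simpa using this
  rw [hRG n m (UZ n m r) T.card _ hom]
  refine ⟨∏ a ∈ T, (rho n m a - 1) - ∏ a ∈ T, rho n m a, prod_low T, ?_⟩
  rw [add_sub_cancel]
  intro M hM
  obtain ⟨a, ha, j, hj⟩ := exists_row hM T hT
  rw [map_prod]
  refine Finset.prod_eq_zero ha ?_
  unfold rho
  rw [map_sub, map_sum, map_one]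
  simp only [MvPolynomial.eval_X]
  rw [row_sum hM.1 hj, sub_self]

theorem stmt_MRK (hRG : Stmt_RG) : Stmt_MRK := by
  intro n m r α _ h
  obtain ⟨T, hT⟩ : ∃ T : Finset (Fin n), T = Finset.univ.filter fun a => α a = some none :=
    ⟨_, rfl⟩
  have hc : T.card = tt α := by rw [hT]; rfl
  have h1 := prod_rho_mem (n := n) (m := m) (r := r) hRG T (by rw [hc]; exact h)
  have h2 : mon α = (∏ a ∈ T, rho n m a) * ∏ a ∈ Finset.univ \ T, val a (α a) := by
    unfold mon
    rw [mul_comm, ← Finset.prod_sdiff (Finset.subset_univ T)]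
    congr 1
    refine Finset.prod_congr rfl fun a ha => ?_
    rw [hT, Finset.mem_filter] at ha
    rw [ha.2]
    rfl
  rw [h2]
  exact Ideal.mul_mem_right _ _ h1

end Pool.RookLC.helper49
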