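import Pool.Agent.Work.MP_6f78fb_rk_helper49.EQV

open scoped BigOperators TensorProduct
open Classical

noncomputable section

namespace Pool.RookLC.helper49

variable {n m : ℕ}

/-- concrete form of `Op` -/
def cOp (v : ℤ × ℤ) (f : Fn2 n m) : Fn2 n m :=
  fun ω => ∑ κ ∈ (comps ω).filter (fun κ => ch κ ω = -v), f (fl κ ω)

theorem comps_swap (ω : Pr n m) : comps ω.swap = comps ω := by
  have hg : gr ω.swap = gr ω := by
    ext a b
    show (a ≠ b ∧ Shr ω.swap a b) ↔ (a ≠ b ∧ Shr ω a b)
    have : Shr ω.swap a b ↔ Shr ω a b := by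
      unfold Shr
      constructor
      · rintro ⟨j, h | h⟩
        · exact ⟨j, Or.inr h⟩
        · exact ⟨j, Or.inl h⟩
      · rintro ⟨j, h | h⟩
        · exact ⟨j, Or.inr h⟩
        · exact ⟨j, Or.inl h⟩
    rw [this]
  have hv : Valid2 ω.swap ↔ Valid2 ω := by
    unfold Valid2
    exact and_comm
  have hc : cmp ω.swap = cmp ω := by
    funext a
    unfold cmp
    rw [hg]
  unfold comps
  rw [hc]
  by_cases h : Valid2 ω
  · rw [if_pos h, if_pos (hv.2 h)]
  · rw [if_neg h, if_neg (fun h' => h (hv.1 h'))]

theorem ch_swap (ω : Pr n m) (κ : Finset (Fin n)) : ch κ ω.swap = - ch κ ω := by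
  unfold ch
  apply Prod.ext
  · simp only [Prod.fst_neg, ← Finset.sum_neg_distrib, Prod.snd_swap, Prod.fst_swap]
    exact Finset.sum_congr rfl fun a _ => by ring
  · simp only [Prod.snd_neg, ← Finset.sum_neg_distrib, Prod.snd_swap, Prod.fst_swap]
    exact Finset.sum_congr rfl fun a _ => by ring

theorem fl_swap (ω : Pr n m) (κ : Finset (Fin n)) : fl κ ω.swap = (fl κ ω).swap := rfl

/-- `f ∘ swap` -/
def sgf (f : Fn2 n m) : Fn2 n m := fun ω => f ω.swap

theorem sg_cOp (v : ℤ × ℤ) (f : Fn2 n m) : sgf (cOp v f) = cOp (-v) (sgf f) := by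
  funext ω
  unfold sgf cOp
  rw [comps_swap]
  simp only [ch_swap, fl_swap]
  refine Finset.sum_congr ?_ fun _ _ => rfl
  ext κ
  simp only [Finset.mem_filter, neg_neg]
  constructor
  · rintro ⟨h, h1⟩
    exact ⟨h, neg_injective h1⟩
  · rintro ⟨h, h1⟩
    exact ⟨h, by rw [h1]⟩

theorem sg_NH {l : Bool} {f : Fn2 n m} (hf : f ∈ NH n m l) : sgf f ∈ NH n m l := by
  obtain ⟨h1, h2, h3⟩ := hf
  refine ⟨fun ω hω => ?_, ⟨fun α β a => h2.2 β α a, fun α β a => h2.1 β α a⟩, fun hl => ⟨?_, ?_⟩⟩
  · have := h1 _ hω
    exact ⟨this.2, this.1⟩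
  · intro α β s
    have := (h3 hl).2 β α s
    rw [← this]
    refine Finset.sum_congr ?_ fun _ _ => rfl
    ext b
    simp [and_comm]
  · intro α β s
    have := (h3 hl).1 β α s
    rw [← this]
    refine Finset.sum_congr ?_ fun _ _ => rfl
    ext b
    simp [and_comm]

theorem valid2_of_comps {ω : Pr n m} {κ : Finset (Fin n)} (h : κ ∈ comps ω) : Valid2 ω := by
  unfold comps at h
  by_contra hv
  rw [if_neg hv] at h
  simp at h

theorem cOp_invalid (v : ℤ × ℤ) (f : Fn2 n m) {ω : Pr n m} (h : ¬ Valid2 ω) : cOp v f ω = 0 := by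
  unfold cOp comps
  rw [if_neg h]
  rfl

theorem mem_cols {α : Cf n m} {x : Fin m} : x ∈ cols α ↔ ∃ a, α a = some (some x) := by
  unfold cols
  simp

/-- the union of the columns is preserved -/
theorem cols_fl (κ : Finset (Fin n)) (ω : Pr n m) (x : Fin m) :
    (x ∈ cols (fl κ ω).1 ∨ x ∈ cols (fl κ ω).2) ↔ (x ∈ cols ω.1 ∨ x ∈ cols ω.2) := by
  simp only [mem_cols]
  constructor
  · rintro (⟨a, ha⟩ | ⟨a, ha⟩)
    · unfold fl at ha
      simp only at ha
      split_ifs at ha
      · exact Or.inr ⟨a, ha⟩
      · exact Or.inl ⟨a, ha⟩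
    · unfold fl at ha
      simp only at ha
      split_ifs at ha
      · exact Or.inl ⟨a, ha⟩
      · exact Or.inr ⟨a, ha⟩
  · rintro (⟨a, ha⟩ | ⟨a, ha⟩)
    · by_cases hk : a ∈ κ
      · exact Or.inr ⟨a, by unfold fl; simp only [hk, if_true]; exact ha⟩
      · exact Or.inl ⟨a, by unfold fl; simp only [hk, if_false]; exact ha⟩
    · by_cases hk : a ∈ κ
      · exact Or.inl ⟨a, by unfold fl; simp only [hk, if_true]; exact ha⟩
      · exact Or.inr ⟨a, by unfold fl; simp only [hk, if_false]; exact ha⟩

theorem valid_update {α : Cf n m} {a : Fin n} {x : Fin m}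
    (h : Valid (Function.update α a (some (some x)))) (b : Fin n) (hb : b ≠ a) :
    α b ≠ some (some x) := by
  intro hx
  refine hb (h b a x ?_ ?_)
  · rw [Function.update_of_ne hb]; exact hx
  · rw [Function.update_self]

theorem valid_update_iff {α : Cf n m} {a : Fin n} {x : Fin m} (h0 : α a = none) :
    Valid (Function.update α a (some (some x))) ↔ Valid α ∧ x ∉ cols α := by
  constructor
  · intro h
    refine ⟨fun b c j hb hc => ?_, fun hx => ?_⟩
    · have hba : b ≠ a := by rintro rfl; rw [h0] at hb; simp at hb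
      have hca : c ≠ a := by rintro rfl; rw [h0] at hc; simp at hc
      exact h b c j (by rw [Function.update_of_ne hba]; exact hb)
        (by rw [Function.update_of_ne hca]; exact hc)
    · obtain ⟨b, hb⟩ := mem_cols.1 hx
      have hba : b ≠ a := by rintro rfl; rw [h0] at hb; simp at hb
      exact valid_update h b hba hb
  · rintro ⟨h, hx⟩ b c j hb hc
    by_cases hba : b = a
    · by_cases hca : c = a
      · rw [hba, hca]
      · exfalso
        rw [hba, Function.update_self] at hb
        rw [Function.update_of_ne hca] at hc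
        simp only [Option.some.injEq] at hb
        exact hx (mem_cols.2 ⟨c, by rw [hb]; exact hc⟩)
    · by_cases hca : c = a
      · exfalso
        rw [hca, Function.update_self] at hc
        rw [Function.update_of_ne hba] at hb
        simp only [Option.some.injEq] at hc
        exact hx (mem_cols.2 ⟨b, by rw [hc]; exact hb⟩)
      · rw [Function.update_of_ne hba] at hb
        rw [Function.update_of_ne hca] at hc
        exact h b c j hb hc

theorem gr_update {α β : Cf n m} {a : Fin n} {x : Fin m} (h0 : α a = none) (hx : x ∉ cols β) :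
    gr (Function.update α a (some (some x)), β) = gr (α, β) := by
  ext b c
  show (b ≠ c ∧ Shr _ b c) ↔ (b ≠ c ∧ Shr _ b c)
  refine and_congr_right fun _ => ?_
  have key : ∀ b c : Fin n, ∀ j, (Function.update α a (some (some x)) b = some (some j) ∧
      β c = some (some j)) ↔ (α b = some (some j) ∧ β c = some (some j)) := by
    intro b c j
    by_cases hb : b = a
    · subst hb
      rw [Function.update_self, h0]
      constructor
      · rintro ⟨h1, h2⟩
        simp only [Option.some.injEq] at h1
        exact absurd (mem_cols.2 ⟨c, by rw [h1]; exact h2⟩) hx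
      · rintro ⟨h1, _⟩
        simp at h1
    · rw [Function.update_of_ne hb]
  unfold Shr
  refine exists_congr fun j => ?_
  simp only
  rw [key b c j, and_comm (a := β b = _), key c b j, and_comm (a := β b = _)]

theorem ch_update {α β : Cf n m} {a : Fin n} (x y : Fin m) (κ : Finset (Fin n)) :
    ch κ (Function.update α a (some (some x)), β) =
      ch κ (Function.update α a (some (some y)), β) := by
  have h1 : ∀ b, (Function.update α a (some (some x)) b = none ↔
      Function.update α a (some (some y)) b = none) := by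
    intro b
    by_cases hb : b = a
    · subst hb; simp
    · rw [Function.update_of_ne hb, Function.update_of_ne hb]
  have h2 : ∀ b, (Function.update α a (some (some x)) b = some none ↔
      Function.update α a (some (some y)) b = some none) := by
    intro b
    by_cases hb : b = a
    · subst hb; simp
    · rw [Function.update_of_ne hb, Function.update_of_ne hb]
  unfold ch
  simp only [h1, h2]

theorem fl_update_notMem {α β : Cf n m} {a : Fin n} {s : St m} {κ : Finset (Fin n)}
    (ha : a ∉ κ) : fl κ (Function.update α a s, β) =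
      (Function.update (fl κ (α, β)).1 a s, (fl κ (α, β)).2) := by
  unfold fl
  apply Prod.ext
  · funext b
    by_cases hb : b = a
    · subst hb; simp [ha]
    · simp only [Function.update_of_ne hb]
  · funext b
    by_cases hb : b = a
    · subst hb; simp [ha]
    · simp only [Function.update_of_ne hb]

theorem fl_update_mem {α β : Cf n m} {a : Fin n} {s : St m} {κ : Finset (Fin n)}
    (ha : a ∈ κ) : fl κ (Function.update α a s, β) =
      ((fl κ (α, β)).1, Function.update (fl κ (α, β)).2 a s) := by
  unfold fl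
  apply Prod.ext
  · funext b
    by_cases hb : b = a
    · subst hb; simp [ha]
    · simp only [Function.update_of_ne hb]
  · funext b
    by_cases hb : b = a
    · subst hb; simp [ha]
    · simp only [Function.update_of_ne hb]

/-- sums over unused columns vanish -/
theorem npos1' {l : Bool} {f : Fn2 n m} (hf : f ∈ NH n m l) (α β : Cf n m) (a : Fin n)
    (h0 : α a = none) (s : Finset (Fin m))
    (hs : ∀ x, x ∈ s ↔ ¬ (x ∈ cols α ∨ x ∈ cols β)) :
    ∑ x ∈ s, f (Function.update α a (some (some x)), β) = 0 := by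
  rw [← hf.2.1.1 α β a]
  refine Finset.sum_subset ?_ ?_
  · intro x hx
    rw [hs] at hx
    rw [Finset.mem_compl]
    exact fun h => hx (Or.inr h)
  · intro x hx hxs
    rw [Finset.mem_compl] at hx
    rw [hs, not_not] at hxs
    by_contra hne
    have hv := (hf.1 _ hne).1
    have := ((valid_update_iff h0).1 hv).2
    rcases hxs with h | h
    · exact this h
    · exact hx h

theorem npos2' {l : Bool} {f : Fn2 n m} (hf : f ∈ NH n m l) (α β : Cf n m) (a : Fin n)
    (h0 : β a = none) (s : Finset (Fin m))
    (hs : ∀ x, x ∈ s ↔ ¬ (x ∈ cols α ∨ x ∈ cols β)) :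
    ∑ x ∈ s, f (α, Function.update β a (some (some x))) = 0 := by
  have := npos1' (sg_NH hf) β α a h0 s (fun x => by rw [hs, or_comm])
  exact this

theorem cOp_npos1 {l : Bool} {f : Fn2 n m} (hf : f ∈ NH n m l) (v : ℤ × ℤ) (α β : Cf n m)
    (a : Fin n) : ∑ x ∈ (cols β)ᶜ, cOp v f (Function.update α a (some (some x)), β) = 0 := by
  obtain ⟨α0, hα0⟩ : ∃ α0, α0 = Function.update α a none := ⟨_, rfl⟩
  have h0 : α0 a = none := by rw [hα0, Function.update_self]
  have hup : ∀ s : St m, Function.update α a s = Function.update α0 a s := by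
    intro s; rw [hα0, Function.update_idem]
  simp only [hup]
  by_cases hv : Valid2 (α0, β)
  swap
  · refine Finset.sum_eq_zero fun x _ => cOp_invalid v f fun h => hv ?_
    exact ⟨((valid_update_iff h0).1 h.1).1, h.2⟩
  obtain ⟨s, hs⟩ : ∃ s : Finset (Fin m), ∀ x, x ∈ s ↔ ¬ (x ∈ cols α0 ∨ x ∈ cols β) :=
    ⟨Finset.univ.filter fun x => ¬ (x ∈ cols α0 ∨ x ∈ cols β), fun x => by simp⟩
  have h1 : ∑ x ∈ (cols β)ᶜ, cOp v f (Function.update α0 a (some (some x)), β) =
      ∑ x ∈ s, cOp v f (Function.update α0 a (some (some x)), β) := by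
    symm
    refine Finset.sum_subset ?_ ?_
    · intro x hx
      rw [hs] at hx
      rw [Finset.mem_compl]
      exact fun h => hx (Or.inr h)
    · intro x hx hxs
      rw [Finset.mem_compl] at hx
      rw [hs, not_not] at hxs
      refine cOp_invalid v f fun h => ?_
      have := ((valid_update_iff h0).1 h.1).2
      rcases hxs with h' | h'
      · exact this h'
      · exact hx h'
  rw [h1]
  rcases s.eq_empty_or_nonempty with rfl | ⟨x1, hx1⟩
  · rfl
  obtain ⟨K0, hK0⟩ : ∃ K0 : Finset (Finset (Fin n)),
      K0 = (Finset.univ.image (cmp (α0, β))).filter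
        (fun κ => ch κ (Function.update α0 a (some (some x1)), β) = -v) := ⟨_, rfl⟩
  have h2 : ∀ x ∈ s, cOp v f (Function.update α0 a (some (some x)), β) =
      ∑ κ ∈ K0, f (fl κ (Function.update α0 a (some (some x)), β)) := by
    intro x hx
    rw [hs, not_or] at hx
    unfold cOp
    have hv' : Valid2 (Function.update α0 a (some (some x)), β) :=
      ⟨(valid_update_iff h0).2 ⟨hv.1, hx.1⟩, hv.2⟩
    have hc : cmp (Function.update α0 a (some (some x)), β) = cmp (α0, β) := by
      funext b
      unfold cmp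
      rw [gr_update h0 hx.2]
    unfold comps
    rw [if_pos hv', hc, hK0]
    simp only [ch_update x x1]
  rw [Finset.sum_congr rfl h2, Finset.sum_comm]
  refine Finset.sum_eq_zero fun κ _ => ?_
  have hcu : ∀ x, x ∈ s ↔ ¬ (x ∈ cols (fl κ (α0, β)).1 ∨ x ∈ cols (fl κ (α0, β)).2) := by
    intro x
    rw [hs, cols_fl]
  by_cases ha : a ∈ κ
  · simp only [fl_update_mem ha]
    refine npos2' hf _ _ a ?_ s hcu
    unfold fl
    simp only [ha, if_true]
    exact h0
  · simp only [fl_update_notMem ha]
    refine npos1' hf _ _ a ?_ s hcu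
    unfold fl
    simp only [ha, if_false]
    exact h0

theorem cOp_npos2 {l : Bool} {f : Fn2 n m} (hf : f ∈ NH n m l) (v : ℤ × ℤ) (α β : Cf n m)
    (a : Fin n) : ∑ x ∈ (cols α)ᶜ, cOp v f (α, Function.update β a (some (some x))) = 0 := by
  have h1 := cOp_npos1 (sg_NH hf) (-v) β α a
  rw [← sg_cOp] at h1
  exact h1

/-! ### Labels -/

theorem actC_swap_apply (b b0 : Fin n) (γ : Cf n m) (c : Fin n) :
    actC ((Equiv.swap b b0, 1) : G n m) γ c = γ (Equiv.swap b b0 c) := by
  unfold actC
  simp only [Equiv.symm_swap]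
  rcases γ (Equiv.swap b b0 c) with _ | _ | k <;> simp

theorem actC_swap_update {b b0 : Fin n} {γ : Cf n m} (hb : γ b = none) (hb0 : γ b0 = none)
    (t : St m) : actC ((Equiv.swap b b0, 1) : G n m) (Function.update γ b0 t) =
      Function.update γ b t := by
  funext c
  rw [actC_swap_apply]
  by_cases hc : c = b
  · subst hc
    rw [Equiv.swap_apply_left, Function.update_self, Function.update_self]
  · rw [Function.update_of_ne hc]
    by_cases hc0 : c = b0
    · subst hc0
      rw [Equiv.swap_apply_right, Function.update_of_ne (Ne.symm hc), hb, hb0]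
    · rw [Equiv.swap_apply_of_ne_of_ne hc hc0, Function.update_of_ne hc0]

theorem actC_swap_self {b b0 : Fin n} {γ : Cf n m} (hb : γ b = none) (hb0 : γ b0 = none) :
    actC ((Equiv.swap b b0, 1) : G n m) γ = γ := by
  have := actC_swap_update hb hb0 (γ b0)
  rw [Function.update_eq_self, hb0, ← hb, Function.update_eq_self] at this
  exact this

theorem isolated {ω : Pr n m} {b : Fin n} (h1 : ω.1 b = none) (h2 : ω.2 b = none)
    {κ : Finset (Fin n)} (hκ : κ ∈ comps ω) (hb : b ∈ κ) : κ = {b} := by
  have hadj : ∀ c, ¬ (gr ω).Adj b c := by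
    rintro c ⟨_, j, h | h⟩
    · rw [h1] at h; simp at h
    · rw [h2] at h; simp at h
  have hreach : ∀ c, (gr ω).Reachable b c → b = c := by
    rintro c ⟨w⟩
    cases w with
    | nil => rfl
    | cons h _ => exact absurd h (hadj _)
  unfold comps at hκ
  split_ifs at hκ with hv
  · obtain ⟨a, _, rfl⟩ := Finset.mem_image.1 hκ
    unfold cmp at hb ⊢
    rw [Finset.mem_filter] at hb
    have := hreach a hb.2.symm
    subst this
    ext c
    rw [Finset.mem_filter, Finset.mem_singleton]
    constructor
    · rintro ⟨_, h⟩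
      exact (hreach c h).symm
    · rintro rfl
      exact ⟨Finset.mem_univ _, SimpleGraph.Reachable.refl _⟩
  · simp at hκ

theorem fl_singleton {ω : Pr n m} {b : Fin n} (h : ω.1 b = ω.2 b) : fl {b} ω = ω := by
  unfold fl
  apply Prod.ext
  · funext c
    by_cases hc : c = b
    · subst hc; simp [h]
    · simp [hc]
  · funext c
    by_cases hc : c = b
    · subst hc; simp [h]
    · simp [hc]

theorem cOp_nlab1 {f : Fn2 n m} (hf : f ∈ NH n m true) (v : ℤ × ℤ) (α β : Cf n m)
    (s : Option (Fin m)) :
    ∑ b ∈ Finset.univ.filter (fun b => α b = none ∧ β b = none),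
      cOp v f (Function.update α b (some s), β) = 0 := by
  obtain ⟨B, hB⟩ : ∃ B : Finset (Fin n), B = Finset.univ.filter
    (fun b => α b = none ∧ β b = none) := ⟨_, rfl⟩
  have hBm : ∀ b, b ∈ B ↔ (α b = none ∧ β b = none) := by
    intro b; rw [hB]; simp
  rw [← hB]
  rcases B.eq_empty_or_nonempty with hE | ⟨b0, hb0⟩
  · rw [hE]; rfl
  obtain ⟨hα0, hβ0⟩ := (hBm b0).1 hb0
  obtain ⟨ω0, hω0⟩ : ∃ ω0 : Pr n m, ω0 = (Function.update α b0 (some s), β) := ⟨_, rfl⟩
  have h1 : ∀ b ∈ B, cOp v f (Function.update α b (some s), β) =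
      ∑ κ ∈ (comps ω0).filter (fun κ => ch κ ω0 = -v),
        f (ac2 ((Equiv.swap b b0, 1) : G n m) (fl κ ω0)) := by
    intro b hb
    obtain ⟨hα, hβ⟩ := (hBm b).1 hb
    have h2 : (Function.update α b (some s), β) =
        ac2 ((Equiv.swap b b0, 1) : G n m) ω0 := by
      rw [hω0]
      unfold ac2
      simp only
      rw [actC_swap_update hα hα0, actC_swap_self hβ hβ0]
    rw [h2]
    exact sum_act _ _ _ _
  rw [Finset.sum_congr rfl h1, Finset.sum_comm]
  refine Finset.sum_eq_zero fun κ hκ => ?_
  have hκ' := (Finset.mem_filter.1 hκ).1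
  have hfl : ∀ b, ((fl κ (α, β)).1 b = none ∧ (fl κ (α, β)).2 b = none) ↔ b ∈ B := by
    intro b
    rw [hBm]
    unfold fl
    simp only
    by_cases hb : b ∈ κ
    · simp only [hb, if_true]; exact and_comm
    · simp only [hb, if_false]
  have hfil : Finset.univ.filter (fun b => (fl κ (α, β)).1 b = none ∧
      (fl κ (α, β)).2 b = none) = B := by
    ext b; rw [Finset.mem_filter]; simp only [Finset.mem_univ, true_and]; exact hfl b
  by_cases hex : ∃ b1 ∈ B, b1 ≠ b0 ∧ b1 ∈ κ
  · obtain ⟨b1, hb1, hne, hb1κ⟩ := hex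
    obtain ⟨hα1, hβ1⟩ := (hBm b1).1 hb1
    have e1 : ω0.1 b1 = none := by
      rw [hω0]
      simp only
      rw [Function.update_of_ne hne]
      exact hα1
    have e2 : ω0.2 b1 = none := by rw [hω0]; exact hβ1
    have hk := isolated e1 e2 hκ' hb1κ
    rw [hk, fl_singleton (by rw [e1, e2])]
    have h3 := (hf.2.2 rfl).1 α β s
    rw [← hB] at h3
    rw [← h3]
    refine Finset.sum_congr rfl fun b hb => ?_
    obtain ⟨hα, hβ⟩ := (hBm b).1 hb
    rw [hω0]
    unfold ac2
    simp only
    rw [actC_swap_update hα hα0, actC_swap_self hβ hβ0]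
  · by_cases hb0κ : b0 ∈ κ
    · have h3 := (hf.2.2 rfl).2 (fl κ (α, β)).1 (fl κ (α, β)).2 s
      rw [hfil] at h3
      rw [← h3]
      refine Finset.sum_congr rfl fun b hb => ?_
      have hb' := (hfl b).2 hb
      have hb0' := (hfl b0).2 hb0
      rw [hω0, fl_update_mem hb0κ]
      unfold ac2
      simp only
      rw [actC_swap_update hb'.2 hb0'.2, actC_swap_self hb'.1 hb0'.1]
    · have h3 := (hf.2.2 rfl).1 (fl κ (α, β)).1 (fl κ (α, β)).2 s
      rw [hfil] at h3
      rw [← h3]
      refine Finset.sum_congr rfl fun b hb => ?_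
      have hb' := (hfl b).2 hb
      have hb0' := (hfl b0).2 hb0
      rw [hω0, fl_update_notMem hb0κ]
      unfold ac2
      simp only
      rw [actC_swap_update hb'.1 hb0'.1, actC_swap_self hb'.2 hb0'.2]

theorem cOp_nlab2 {f : Fn2 n m} (hf : f ∈ NH n m true) (v : ℤ × ℤ) (α β : Cf n m)
    (s : Option (Fin m)) :
    ∑ b ∈ Finset.univ.filter (fun b => α b = none ∧ β b = none),
      cOp v f (α, Function.update β b (some s)) = 0 := by
  have h1 := cOp_nlab1 (sg_NH hf) (-v) β α s
  rw [← sg_cOp] at h1
  rw [← h1]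
  refine Finset.sum_congr ?_ fun _ _ => rfl
  ext b
  simp [and_comm]

theorem cOp_NH {l : Bool} {f : Fn2 n m} (hf : f ∈ NH n m l) (v : ℤ × ℤ) :
    cOp v f ∈ NH n m l := by
  refine ⟨fun ω hω => ?_, ⟨cOp_npos1 hf v, cOp_npos2 hf v⟩, fun hl => ?_⟩
  · by_contra hv
    exact hω (cOp_invalid v f hv)
  · subst hl
    exact ⟨cOp_nlab1 hf v, cOp_nlab2 hf v⟩

/-! ### Multiplication -/

theorem dd_update_real {α : Cf n m} {a : Fin n} (x y : Fin m) :
    dd (Function.update α a (some (some x))) = dd (Function.update α a (some (some y))) := by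
  unfold dd
  congr 1
  ext b
  simp only [Finset.mem_filter, Finset.mem_univ, true_and]
  by_cases hb : b = a
  · subst hb; simp
  · rw [Function.update_of_ne hb, Function.update_of_ne hb]

theorem tt_update_real {α : Cf n m} {a : Fin n} (x y : Fin m) :
    tt (Function.update α a (some (some x))) = tt (Function.update α a (some (some y))) := by
  unfold tt
  congr 1
  ext b
  simp only [Finset.mem_filter, Finset.mem_univ, true_and]
  by_cases hb : b = a
  · subst hb; simp
  · rw [Function.update_of_ne hb, Function.update_of_ne hb]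

theorem dd_update_none {α : Cf n m} {b c : Fin n} (hb : α b = none) (hc : α c = none)
    (s : Option (Fin m)) :
    dd (Function.update α b (some s)) = dd (Function.update α c (some s)) := by
  have h : ∀ d : Fin n, α d = none → dd (Function.update α d (some s)) = dd α + 1 := by
    intro d hd
    unfold dd
    have : (Finset.univ.filter fun a => Function.update α d (some s) a ≠ none) =
        insert d (Finset.univ.filter fun a => α a ≠ none) := by
      ext e
      simp only [Finset.mem_filter, Finset.mem_univ, true_and, Finset.mem_insert]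
      by_cases he : e = d
      · subst he; simp
      · rw [Function.update_of_ne he]; simp [he]
    rw [this, Finset.card_insert_of_notMem]
    simp [hd]
  rw [h b hb, h c hc]

theorem tt_update_none {α : Cf n m} {b c : Fin n} (hb : α b = none) (hc : α c = none)
    (s : Option (Fin m)) :
    tt (Function.update α b (some s)) = tt (Function.update α c (some s)) := by
  have h : ∀ d : Fin n, α d = none → tt (Function.update α d (some s)) =
      tt α + (if s = none then 1 else 0) := by
    intro d hd
    unfold tt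
    by_cases hs : s = none
    · subst hs
      have : (Finset.univ.filter fun a => Function.update α d (some none) a = some none) =
          insert d (Finset.univ.filter fun a => α a = some none) := by
        ext e
        simp only [Finset.mem_filter, Finset.mem_univ, true_and, Finset.mem_insert]
        by_cases he : e = d
        · subst he; simp
        · rw [Function.update_of_ne he]; simp [he]
      rw [this, Finset.card_insert_of_notMem]
      · simp
      · simp [hd]
    · rw [if_neg hs, add_zero]
      congr 1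
      ext e
      simp only [Finset.mem_filter, Finset.mem_univ, true_and]
      by_cases he : e = d
      · subst he; simp [hs, hd]
      · rw [Function.update_of_ne he]
  rw [h b hb, h c hc]

theorem sum_const_mul {ι : Type*} (s : Finset ι) (F c : ι → ℂ)
    (hc : ∀ i ∈ s, ∀ j ∈ s, c i = c j) (h : ∑ i ∈ s, F i = 0) : ∑ i ∈ s, c i * F i = 0 := by
  rcases s.eq_empty_or_nonempty with rfl | ⟨i0, hi0⟩
  · rfl
  · rw [Finset.sum_congr rfl fun i hi => by rw [hc i hi i0 hi0], ← Finset.mul_sum, h, mul_zero]

theorem mul_NH {l : Bool} (φ : ℕ → ℕ → ℕ → ℕ → ℂ) {f : Fn2 n m} (hf : f ∈ NH n m l) :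
    (fun ω : Pr n m => φ (dd ω.1) (dd ω.2) (tt ω.1) (tt ω.2) * f ω) ∈ NH n m l := by
  obtain ⟨h1, h2, h3⟩ := hf
  refine ⟨fun ω hω => h1 ω (right_ne_zero_of_mul hω), ⟨fun α β a => ?_, fun α β a => ?_⟩,
    fun hl => ⟨fun α β s => ?_, fun α β s => ?_⟩⟩
  · refine sum_const_mul _ _ _ (fun x _ y _ => ?_) (h2.1 α β a)
    simp only
    rw [dd_update_real x y, tt_update_real x y]
  · refine sum_const_mul _ _ _ (fun x _ y _ => ?_) (h2.2 α β a)
    simp only
    rw [dd_update_real x y, tt_update_real x y]
  · refine sum_const_mul _ _ _ (fun b hb c hc => ?_) ((h3 hl).1 α β s)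
    simp only [Finset.mem_filter, Finset.mem_univ, true_and] at hb hc
    simp only
    rw [dd_update_none hb.1 hc.1, tt_update_none hb.1 hc.1]
  · refine sum_const_mul _ _ _ (fun b hb c hc => ?_) ((h3 hl).2 α β s)
    simp only [Finset.mem_filter, Finset.mem_univ, true_and] at hb hc
    simp only
    rw [dd_update_none hb.2 hc.2, tt_update_none hb.2 hc.2]

theorem stmt_NST : Stmt_NST := by
  intro n m l S h1 h2 h3 h4
  refine ⟨fun v f hf => ?_, fun f hf => ?_, fun φ f hf => mul_NH φ hf⟩
  · have : S.Op v f = cOp v f := by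
      funext ω
      show ∑ κ ∈ (S.comps ω).filter (fun κ => S.ch κ ω = -v), f (S.fl κ ω) = _
      rw [h1, h2, h3]
      rfl
    rw [this]
    exact cOp_NH hf v
  · have : S.sg f = sgf f := by
      funext ω
      show f (S.sw ω) = _
      rw [h4]
      rfl
    rw [this]
    exact sg_NH hf

end Pool.RookLC.helper49
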