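import Pool.Agent.Work.MP_6f78fb_rk_helper49.MAIN
import Pool.Agent.Work.MP_6f78fb_rk_helper49.EQV
import Pool.Agent.Work.MP_6f78fb_rk_helper49.NST
import Pool.Agent.Work.MP_6f78fb_rk_helper49.L2LAB
import Pool.Agent.Work.MP_6f78fb_rk_helper49.MRK
import Pool.Agent.Work.MP_6f78fb_rk_helper17.FIN
import Pool.Agent.Work.MP_6f78fb_rk_helper17.FIN2
import Pool.Agent.Work.MP_6f78fb_rk_helper17.LT
import Pool.Agent.Work.MP_6f78fb_rk_helper17.THS
import Pool.Agent.Work.MP_6f78fb_rk_helper20.PAIR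
import Pool.Agent.Work.MP_6f78fb_rk_helper20.TENS
import Pool.Agent.Work.MP_6f78fb_rk_helper23.FOPS
import Pool.Agent.Work.MP_6f78fb_rk_helper23.HL
import Pool.Agent.Work.MP_6f78fb_rk_helper27.NEAR
import Pool.Agent.Work.MP_6f78fb_rk_helper27.TRS
import Pool.Agent.Work.MP_6f78fb_rk_helper32.INJ2
import Pool.Agent.Work.MP_6f78fb_rk_helper32.SPAN
import Pool.Agent.Work.MP_6f78fb_rk_helper4.FILL
import Pool.Agent.Work.MP_6f78fb_rk_helper51.PSI
import Pool.Agent.Work.MP_6f78fb_rk_helper56.LRED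
import Pool.Agent.Work.MP_6f78fb_rk_helper56.ORT
import Pool.Agent.Work.MP_6f78fb_rk_helper56.VSP
import Pool.Agent.Work.MP_6f78fb_rk_helper66.ALT
import Pool.Agent.Work.MP_6f78fb_rk_helper66.CHAIN
import Pool.Agent.Work.MP_6f78fb_rk_helper67.THI2
import Pool.Agent.Work.MP_6f78fb_rk_helper67.TRA
import Pool.Agent.Work.MP_6f78fb_rk_helper70.ACT
import Pool.Agent.Work.MP_6f78fb_rk_helper83.RG
import Pool.Agent.Work.MP_6f78fb_rk_helper83.THI
import Pool.Agent.Work.MP_6f78fb_rk_helper94.COMPA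
import Pool.Agent.Work.MP_6f78fb_rk_helper94.FM
import Pool.Agent.Work.MP_6f78fb_rk_helper94.SPLIT
import Pool.Agent.Work.MP_6f78fb_rk_helper98.COMPB
import Pool.Agent.Work.MP_6f78fb_rk_helper98.PROJ

open Classical

noncomputable section

namespace Pool.RookLC.All

theorem alt : Stmt_ALT := helper66.stmt_ALT
theorem rg : Stmt_RG := helper83.stmt_RG
theorem ort : Stmt_ORT := helper56.stmt_ORT
theorem act : Stmt_ACT := helper70.stmt_ACT
theorem tens : Stmt_TENS := helper20.stmt_TENS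
theorem proj : Stmt_PROJ := helper98.stmt_PROJ
theorem span : Stmt_SPAN := helper32.stmt_SPAN ort
theorem inj2 : Stmt_INJ2 := helper32.stmt_INJ2 alt
theorem lt : Stmt_LT := helper17.stmt_LT proj act
theorem split : Stmt_SPLIT := helper94.stmt_SPLIT
theorem fin : Stmt_FIN := helper17.stmt_FIN span inj2 lt split tens
theorem tra : Stmt_TRA := helper67.stmt_TRA fin tens
theorem fin2 : Stmt_FIN2 := helper17.stmt_FIN2 span inj2 helper49.stmt_L2LAB tra lt split tens
theorem fops : Stmt_FOPS := helper23.stmt_FOPS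
theorem psi : Stmt_PSI := helper51.stmt_PSI fops (helper66.stmt_CHAIN fops helper23.stmt_HL)
  (helper20.stmt_PAIR fops)
theorem fm : Stmt_FM := helper94.stmt_FM helper94.stmt_COMPA helper98.stmt_COMPB psi
  helper49.stmt_NST helper49.stmt_EQV
theorem ths : Stmt_THS := helper17.stmt_THS (helper56.stmt_VSP rg) (helper56.stmt_LRED ort rg)
  span helper4.stmt_FILL (helper49.stmt_MRK rg)
theorem thi : Stmt_THI := helper83.stmt_THI rg alt
theorem thi2 : Stmt_THI2 := helper67.stmt_THI2 rg alt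
theorem trs : Stmt_TRS := helper27.stmt_TRS
theorem near : Stmt_NEAR := helper27.stmt_NEAR rg
theorem main : Stmt_MAIN := helper49.stmt_MAIN proj tens lt fin fin2 fm act ths thi thi2

end Pool.RookLC.All
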