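import Pool.Agent.Work.MP_6f78fb_rk_helper49.All

open Classical

noncomputable section

namespace Pool.RookLC.All

theorem dd_le_cols {n m : ℕ} {α : Cf n m} (h : Valid α) (ht : tt α = 0) : dd α ≤ m := by
  have h0 : ∀ a, α a ≠ none → ∃ j, α a = some (some j) := by
    intro a ha
    rcases h1 : α a with _ | _ | j
    · exact absurd h1 ha
    · exfalso
      have h2 : a ∈ (Finset.univ.filter fun a => α a = some none) := by
        rw [Finset.mem_filter]; exact ⟨Finset.mem_univ _, h1⟩
      unfold tt at ht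
      rw [Finset.card_eq_zero] at ht
      rw [ht] at h2
      simp at h2
    · exact ⟨j, rfl⟩
  have h1 : ∀ a : {a // α a ≠ none}, ∃ j, α a = some (some j) := fun a => h0 a a.2
  choose f hf using h1
  have h2 : Function.Injective f := by
    intro a b hab
    apply Subtype.ext
    refine h a b (f a) (hf a) ?_
    rw [hab]
    exact hf b
  have h3 := Fintype.card_le_of_injective f h2
  rw [Fintype.card_fin, Fintype.card_subtype] at h3
  exact h3

theorem V_bot_cols {n m r d : ℕ} (hd : m < d) : V n m r d = ⊥ := by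
  rw [Submodule.eq_bot_iff]
  rintro _ ⟨f, hf, rfl⟩
  rw [SetLike.mem_coe, MvPolynomial.mem_homogeneousSubmodule] at hf
  obtain ⟨φ, hφ, h⟩ := helper56.stmt_VSP rg n m r d f hf
  have h0 : φ = 0 := by
    funext α
    by_contra hne
    obtain ⟨h1, h2, h3⟩ := hφ α hne
    have := dd_le_cols h1 h2
    omega
  rw [h0, map_zero, sub_zero] at h
  exact Ideal.Quotient.eq_zero_iff_mem.2 h

/-- Surjections in all degrees `i` without truncation in one of the two factors, linear range. -/
theorem surj_long {n m r i : ℕ} (hn : r ≤ n) (hm : r ≤ m) (hi : 1 ≤ i)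
    (h : (4 * i ≤ m ∧ r + i ≤ m) ∨ (4 * i ≤ n ∧ r + i ≤ n)) : Surj n m r i := by
  rcases h with ⟨h4, hr⟩ | ⟨h4, hr⟩
  · exact main.1 n m r i hn hm hi h4 hr
  · exact trs n m r i (main.1 m n r i hm hn hi h4 hr)

theorem logconc_long {n m r : ℕ} (hn : r ≤ n) (hm : r ≤ m)
    (h : 4 * n ≤ m + 4 ∨ 4 * m ≤ n + 4) : LogConc n m r := by
  intro N hN i hi hiN
  have h1 : N ≤ n := by
    by_contra h'
    exact hN.1 (helper49.V_bot ths hn (by omega))
  have h2 : N ≤ m := by
    by_contra h'
    exact hN.1 (V_bot_cols (by omega))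
  apply surj_long hn hm (by omega)
  rcases h with h | h
  · left; constructor <;> omega
  · right; constructor <;> omega

/-- Low degrees, `r` equal to `min n m` or one less. -/
theorem surj_low {n m r i : ℕ} (hn : r ≤ n) (hm : r ≤ m) (hr : n ≤ r + 1 ∨ m ≤ r + 1)
    (hi : 1 ≤ i) (h4 : 4 * i ≤ n) (h4' : 4 * i ≤ m) : Surj n m r i := by
  have key : ∀ n m r i : ℕ, r ≤ n → r ≤ m → m ≤ r + 1 → 1 ≤ i → 4 * i ≤ n → 4 * i ≤ m →
      Surj n m r i := by
    intro n m r i hn hm hr hi h4 h4'
    by_cases h : r = m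
    · subst h
      exact main.2.1 n r i hn hi h4'
    · have e : r = m - 1 := by omega
      subst e
      exact near n m i (by omega) (main.2.1 (n + 1) m i (by omega) hi h4')
  rcases hr with hr | hr
  · exact trs n m r i (key m n r i hm hn hr hi h4' h4)
  · exact key n m r i hn hm hr hi h4 h4'

end Pool.RookLC.All
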